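import Pool.Agent.Helper5.LD6.T5b
import Pool.Agent.Helper41.LD7.Defs

/-!
# Project LD7, block T57: exponential integrals of combinations of the powers `x ^ (τ / P)`
-/

set_option autoImplicit false

namespace Pool.Agent.Helper5.LD7

open Set MeasureTheory
open Pool.Agent.Helper41.LD5 (fp pwf)
open Pool.Agent.Helper41.LD6 (NR6 Vf)
open Pool.Agent.Helper59.RE (e)
open Pool.Agent.Helper5.LD6 (phi_lo gap_pos)

theorem fp_vf {A₀ x : ℝ} {P n : ℕ} (hP : 1 ≤ P) (hn : 1 ≤ n) (hx : 0 < x) :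
    fp A₀ P n x = Vf (A₀ / P * x⁻¹ * x ^ (1 / (P : ℝ))) n (x ^ (1 / (P : ℝ))) := by
  have hP0 : (0 : ℝ) < P := by exact_mod_cast hP
  have h1 : x ^ ((n : ℝ) / P - 1) = (x ^ (1 / (P : ℝ))) ^ n * x⁻¹ := by
    rw [Real.rpow_sub hx, Real.rpow_one, ← Real.rpow_natCast (x ^ (1 / (P : ℝ))) n, ← Real.rpow_mul hx.le, div_eq_mul_inv]
    congr 2
    ring
  have h2 : (x ^ (1 / (P : ℝ))) ^ n = x ^ (1 / (P : ℝ)) * (x ^ (1 / (P : ℝ))) ^ (n - 1) := by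
    rw [← pow_succ']
    congr 1
    omega
  unfold fp Vf
  rw [h1, h2]
  ring

/-- the derivative of `fp` -/
noncomputable def fpd (A₀ : ℝ) (P n : ℕ) (x : ℝ) : ℝ := A₀ * ((n : ℝ) / P) * (((n : ℝ) / P - 1) * x ^ ((n : ℝ) / P - 1 - 1))

theorem pwf_der {A₀ x : ℝ} {P n : ℕ} (c : ℝ → ℝ) (hx : 0 < x) : HasDerivAt (pwf A₀ c P n) (fp A₀ P n x) x := by
  have h := ((Real.hasDerivAt_rpow_const (x := x) (p := (n : ℝ) / P) (Or.inl hx.ne')).const_mul A₀).add_const (c ((n : ℝ) / P))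
  have h2 : A₀ * ((n : ℝ) / P * x ^ ((n : ℝ) / P - 1)) = fp A₀ P n x := by rw [fp]; ring
  rw [← h2]
  exact h

theorem fp_der {A₀ x : ℝ} {P n : ℕ} (hx : 0 < x) : HasDerivAt (fp A₀ P n) (fpd A₀ P n x) x :=
  (Real.hasDerivAt_rpow_const (x := x) (p := (n : ℝ) / P - 1) (Or.inl hx.ne')).const_mul (A₀ * ((n : ℝ) / P))

theorem fpd_cont {A₀ p q : ℝ} {P n : ℕ} (hp : 0 < p) : ContinuousOn (fpd A₀ P n) (Icc p q) := by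
  unfold fpd
  refine continuousOn_const.mul (continuousOn_const.mul ?_)
  exact ContinuousOn.rpow_const continuousOn_id fun x hx => Or.inl (ne_of_gt (lt_of_lt_of_le hp hx.1))

/-- small changes of the point -/
theorem rpow_near {a x ℓ s T : ℝ} (ha : 1 ≤ a) (hx0 : 0 ≤ x) (hx : x ≤ a + ℓ) (hℓ : 0 ≤ ℓ) (hs : 0 ≤ s) (hsT : s ≤ T) (hTℓ : T * ℓ ≤ 1 / 2) :
    x ^ s ≤ 2 * a ^ s := by
  have ha0 : 0 ≤ a := by linarith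
  have h1 : x ≤ a * Real.exp ℓ := by
    have h2 := Real.add_one_le_exp ℓ
    nlinarith
  have h3 : Real.exp ℓ ^ s ≤ 2 := by
    rw [← Real.exp_mul]
    have h4 : ℓ * s ≤ 1 / 2 := by nlinarith
    have h5 : Real.exp (1 / 2) ≤ 2 := by
      have h6 : Real.exp (1 / 2) * Real.exp (1 / 2) = Real.exp 1 := by
        rw [← Real.exp_add]
        norm_num
      have h7 := Real.exp_one_lt_d9
      have h8 := Real.exp_pos (1 / 2)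
      nlinarith
    exact (Real.exp_le_exp.2 h4).trans h5
  calc x ^ s ≤ (a * Real.exp ℓ) ^ s := Real.rpow_le_rpow hx0 h1 hs
    _ = a ^ s * Real.exp ℓ ^ s := Real.mul_rpow ha0 (Real.exp_pos _).le
    _ ≤ a ^ s * 2 := mul_le_mul_of_nonneg_left h3 (Real.rpow_nonneg ha0 _)
    _ = 2 * a ^ s := by ring

/-- upper bound of the second derivative -/
theorem phi_hi7 {A₀ x a ℓ : ℝ} {t T N P : ℕ} (hA : 0 < A₀) (hP : 1 ≤ P) (h1 : 1 < a) (hax : a ≤ x) (hxℓ : x ≤ a + ℓ) (hℓ : 0 < ℓ)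
    (I : Finset ℕ) (hI : I.card ≤ t) (hIT : ∀ τ ∈ I, P ≤ τ ∧ τ ≤ T) (hTℓ : (T : ℝ) * ℓ ≤ 1 / 2)
    (m : ℕ → ℤ) (hm : ∀ τ ∈ I, |m τ| ≤ N) {τs : ℕ} (hs : τs ∈ I) (hmax : ∀ τ ∈ I, τ ≤ τs) :
    |∑ τ ∈ I, (m τ : ℝ) * fpd A₀ P τ x| ≤ 2 * t * N * T * fp A₀ P τs a := by
  have hx0 : (1 : ℝ) < x := by linarith
  have hP0 : (0 : ℝ) < P := by exact_mod_cast hP
  have hP1 : (1 : ℝ) ≤ P := by exact_mod_cast hP
  have hdiv : ∀ τ ∈ I, (1 : ℝ) ≤ (τ : ℝ) / P ∧ (τ : ℝ) / P ≤ T := by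
    intro τ hτ
    have h2 : (P : ℝ) ≤ τ := by exact_mod_cast (hIT τ hτ).1
    have h3 : (τ : ℝ) ≤ T := by exact_mod_cast (hIT τ hτ).2
    constructor
    · rw [le_div_iff₀ hP0]
      linarith
    · rw [div_le_iff₀ hP0]
      nlinarith
  have hV0 : 0 ≤ fp A₀ P τs a := by
    unfold fp
    have : (0 : ℝ) ≤ a ^ ((τs : ℝ) / P - 1) := Real.rpow_nonneg (by linarith) _
    positivity
  have h2 : ∀ τ ∈ I, |(m τ : ℝ) * fpd A₀ P τ x| ≤ (N : ℝ) * T * (2 * fp A₀ P τs a) := by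
    intro τ hτ
    have h7 : |(m τ : ℝ)| ≤ N := by
      have := hm τ hτ
      exact_mod_cast this
    obtain ⟨h8, h9⟩ := hdiv τ hτ
    have h10 : (τ : ℝ) / P ≤ (τs : ℝ) / P := div_le_div_of_nonneg_right (by exact_mod_cast hmax τ hτ) hP0.le
    have h11 := (hdiv τs hs).2
    have h12 : x ^ ((τ : ℝ) / P - 1 - 1) ≤ 2 * a ^ ((τs : ℝ) / P - 1) := by
      refine le_trans (Real.rpow_le_rpow_of_exponent_le hx0.le ?_)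
        (rpow_near (T := (T : ℝ)) h1.le (by linarith) hxℓ hℓ.le (by linarith [(hdiv τs hs).1] : (0 : ℝ) ≤ (τs : ℝ) / P - 1) (by linarith) hTℓ)
      linarith
    have h13 : (0 : ℝ) ≤ x ^ ((τ : ℝ) / P - 1 - 1) := Real.rpow_nonneg (by linarith) _
    have h14 : (0 : ℝ) ≤ (τ : ℝ) / P := by linarith
    have h15 : (0 : ℝ) ≤ (τ : ℝ) / P - 1 := by linarith
    have h16 : (0 : ℝ) ≤ a ^ ((τs : ℝ) / P - 1) := Real.rpow_nonneg (by linarith) _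
    rw [abs_mul, fpd, abs_of_nonneg (mul_nonneg (mul_nonneg hA.le h14) (mul_nonneg h15 h13))]
    calc |(m τ : ℝ)| * (A₀ * ((τ : ℝ) / P) * (((τ : ℝ) / P - 1) * x ^ ((τ : ℝ) / P - 1 - 1))) =
          |(m τ : ℝ)| * ((τ : ℝ) / P - 1) * (A₀ * (((τ : ℝ) / P) * x ^ ((τ : ℝ) / P - 1 - 1))) := by ring
      _ ≤ N * T * (A₀ * (((τs : ℝ) / P) * (2 * a ^ ((τs : ℝ) / P - 1)))) := by
          refine mul_le_mul (mul_le_mul h7 (by linarith) h15 (by positivity))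
            (mul_le_mul_of_nonneg_left (mul_le_mul h10 h12 h13 (by linarith)) hA.le) (mul_nonneg hA.le (mul_nonneg h14 h13)) (by positivity)
      _ = (N : ℝ) * T * (2 * fp A₀ P τs a) := by rw [fp]; ring
  calc |∑ τ ∈ I, (m τ : ℝ) * fpd A₀ P τ x| ≤ ∑ τ ∈ I, |(m τ : ℝ) * fpd A₀ P τ x| := Finset.abs_sum_le_sum_abs _ _
    _ ≤ ∑ _τ ∈ I, (N : ℝ) * T * (2 * fp A₀ P τs a) := Finset.sum_le_sum h2
    _ = I.card * ((N : ℝ) * T * (2 * fp A₀ P τs a)) := by rw [Finset.sum_const, nsmul_eq_mul]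
    _ ≤ t * ((N : ℝ) * T * (2 * fp A₀ P τs a)) := mul_le_mul_of_nonneg_right (by exact_mod_cast hI) (by positivity)
    _ = 2 * t * N * T * fp A₀ P τs a := by ring

/-- lower bound of the derivative -/
theorem phi_lo7 {A₀ x₁ x₂ x a δ κ₁ : ℝ} {t G T N P : ℕ} (hA : 0 < A₀) (hP : 1 ≤ P) (h1 : 1 < x₁) (hx1 : x₁ ≤ a) (hax : a ≤ x) (hx2 : x ≤ x₂)
    (hG : 1 ≤ G) (I : Finset ℕ) (hI : I.card ≤ t) (hIT : ∀ τ ∈ I, P ≤ τ ∧ τ ≤ T) (hnr : NR6 t (t * G) T N δ (x ^ (1 / (P : ℝ))))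
    (hgap : (t : ℝ) * N * T ≤ δ / 2 * (x₁ ^ (1 / (P : ℝ))) ^ G) (hκ0 : 0 < κ₁) (hκ : κ₁ * (2 * T * x₂ ^ (t * G)) ≤ δ)
    (m : ℕ → ℤ) (hm : ∀ τ ∈ I, |m τ| ≤ N) (hm0 : ∀ τ ∈ I, m τ ≠ 0) {τs : ℕ} (hs : τs ∈ I) (hmax : ∀ τ ∈ I, τ ≤ τs) :
    κ₁ * fp A₀ P τs a ≤ |∑ τ ∈ I, (m τ : ℝ) * fp A₀ P τ x| := by
  have hP0 : (0 : ℝ) < P := by exact_mod_cast hP
  have hP1 : (1 : ℝ) ≤ P := by exact_mod_cast hP
  have hx : 1 < x := by linarith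
  have hx0 : 0 < x := by linarith
  have hP2 : 1 / (P : ℝ) ≤ 1 := by
    rw [div_le_one hP0]
    exact hP1
  have hP3 : 0 < 1 / (P : ℝ) := by positivity
  have hy1 : 1 < x₁ ^ (1 / (P : ℝ)) := Real.one_lt_rpow h1 hP3
  have hy2 : x₁ ^ (1 / (P : ℝ)) ≤ x ^ (1 / (P : ℝ)) := Real.rpow_le_rpow (by linarith) (by linarith) hP3.le
  have hy3 : x ^ (1 / (P : ℝ)) ≤ x₂ := by
    calc x ^ (1 / (P : ℝ)) ≤ x ^ (1 : ℝ) := Real.rpow_le_rpow_of_exponent_le hx.le hP2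
      _ = x := Real.rpow_one x
      _ ≤ x₂ := hx2
  have hA' : 0 < A₀ / P * x⁻¹ * x ^ (1 / (P : ℝ)) := by positivity
  have h := phi_lo (A₀ := A₀ / P * x⁻¹ * x ^ (1 / (P : ℝ))) (x₁ := x₁ ^ (1 / (P : ℝ))) (x₂ := x₂) (x := x ^ (1 / (P : ℝ)))
    (a := x ^ (1 / (P : ℝ))) hA' hy1 hy2 le_rfl hy3 hG I hI (fun τ hτ => ⟨le_trans hP (hIT τ hτ).1, (hIT τ hτ).2⟩) hnr hgap hκ0 hκ m hm hm0 hs hmax
  rw [← fp_vf hP (le_trans hP (hIT τs hs).1) hx0, Finset.sum_congr rfl fun τ hτ => by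
    rw [← fp_vf hP (le_trans hP (hIT τ hτ).1) hx0]] at h
  refine le_trans (mul_le_mul_of_nonneg_left ?_ hκ0.le) h
  unfold fp
  have h2 : (P : ℝ) ≤ τs := by exact_mod_cast (hIT τs hs).1
  have h3 : (1 : ℝ) ≤ (τs : ℝ) / P := by
    rw [le_div_iff₀ hP0]
    linarith
  exact mul_le_mul_of_nonneg_left (Real.rpow_le_rpow (by linarith) hax (by linarith)) (by positivity)

theorem phi_int {A₀ x₁ x₂ a ℓ p q ϑ δ κ₁ : ℝ} {t G T N P : ℕ} (hA : 0 < A₀) (hP : 1 ≤ P) (h1 : 1 < x₁) (ha1 : x₁ ≤ a) (ha2 : a + ℓ ≤ x₂) (hℓ : 0 < ℓ)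
    (hp : a ≤ p) (hpq : p ≤ q) (hq : q ≤ a + ℓ) (c : ℝ → ℝ) (I : Finset ℕ) (hI : I.card ≤ t) (hIT : ∀ τ ∈ I, P ≤ τ ∧ τ ≤ T)
    (hnr : ∀ x ∈ Icc a (a + ℓ), NR6 t (t * G) T N δ (x ^ (1 / (P : ℝ)))) (hN : 1 ≤ N) (hδ : 0 < δ)
    (hgap : (t : ℝ) * N * T ≤ δ / 2 * (x₁ ^ (1 / (P : ℝ))) ^ G)
    (hκ0 : 0 < κ₁) (hκ : κ₁ * (2 * T * x₂ ^ (t * G)) ≤ δ) (hℓκ : 2 * (t : ℝ) * N * T * ℓ ≤ κ₁) (hTℓ : (T : ℝ) * ℓ ≤ 1 / 2)
    (hϑ : 0 < ϑ) (hV : ∀ τ ∈ I, ϑ ≤ fp A₀ P τ a * ℓ) (m : ℕ → ℤ) (hm : ∀ τ ∈ I, |m τ| ≤ N) (hm0 : ∃ τ ∈ I, m τ ≠ 0) :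
    ‖∫ x in p..q, e (∑ τ ∈ I, m τ * pwf A₀ c P τ x)‖ ≤ 2 * ℓ / (κ₁ * ϑ) := by
  classical
  set I' := I.filter fun τ => m τ ≠ 0 with hI'
  have hsub : I' ⊆ I := Finset.filter_subset _ _
  have hne : I'.Nonempty := by
    obtain ⟨τ, hτ, hτm⟩ := hm0
    exact ⟨τ, Finset.mem_filter.2 ⟨hτ, hτm⟩⟩
  obtain ⟨τs, hs, hmax⟩ : ∃ τs ∈ I', ∀ τ ∈ I', τ ≤ τs := ⟨I'.max' hne, I'.max'_mem hne, fun τ hτ => I'.le_max' τ hτ⟩
  have hcard : I'.card ≤ t := (Finset.card_le_card hsub).trans hI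
  have ht1 : 1 ≤ t := le_trans (Finset.card_pos.2 hne) hcard
  have hT1 : 1 ≤ T := le_trans (le_trans hP (hIT τs (hsub hs)).1) (hIT τs (hsub hs)).2
  have ha0 : (1 : ℝ) < a := by linarith
  have hG : 1 ≤ G := gap_pos ht1 hT1 hN (hnr a ⟨le_rfl, by linarith⟩) hgap
  have hsum : ∀ f : ℕ → ℝ, ∑ τ ∈ I, (m τ : ℝ) * f τ = ∑ τ ∈ I', (m τ : ℝ) * f τ := by
    intro f
    refine (Finset.sum_filter_of_ne ?_).symm
    intro τ _ h hm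
    exact h (by rw [hm]; simp)
  have hVs : ϑ ≤ fp A₀ P τs a * ℓ := hV τs (hsub hs)
  have hVpos : 0 < fp A₀ P τs a := by
    by_contra hc
    have h2 : fp A₀ P τs a * ℓ ≤ 0 := mul_nonpos_of_nonpos_of_nonneg (not_lt.1 hc) hℓ.le
    linarith
  have hμ : 0 < κ₁ * fp A₀ P τs a := mul_pos hκ0 hVpos
  have hp0 : 0 < p := by linarith
  have h := Pool.Agent.Helper80.LD6.exp_int (φ := fun x => ∑ τ ∈ I', (m τ : ℝ) * pwf A₀ c P τ x)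
    (φ₁ := fun x => ∑ τ ∈ I', (m τ : ℝ) * fp A₀ P τ x)
    (φ₂ := fun x => ∑ τ ∈ I', (m τ : ℝ) * fpd A₀ P τ x) (p := p) (q := q) (μ := κ₁ * fp A₀ P τs a) (B₂ := 2 * t * N * T * fp A₀ P τs a) hpq
    (fun x hx => HasDerivAt.fun_sum fun τ _ => (pwf_der c (lt_of_lt_of_le hp0 hx.1)).const_mul _)
    (fun x hx => HasDerivAt.fun_sum fun τ _ => (fp_der (lt_of_lt_of_le hp0 hx.1)).const_mul _)
    (continuousOn_finsetSum _ fun τ _ => continuousOn_const.mul (fpd_cont hp0)) hμ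
    (fun x hx => phi_lo7 hA hP h1 ha1 (by linarith [hx.1]) (by linarith [hx.2]) hG I' hcard (fun τ hτ => hIT τ (hsub hτ))
      (hnr x ⟨by linarith [hx.1], by linarith [hx.2]⟩) hgap hκ0 hκ m (fun τ hτ => hm τ (hsub hτ)) (fun τ hτ => (Finset.mem_filter.1 hτ).2) hs hmax)
    (fun x hx => phi_hi7 hA hP ha0 (by linarith [hx.1]) (by linarith [hx.2]) hℓ I' hcard (fun τ hτ => hIT τ (hsub hτ)) hTℓ m
      (fun τ hτ => hm τ (hsub hτ)) hs hmax)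
  have h2 : (∫ x in p..q, e (∑ τ ∈ I, m τ * pwf A₀ c P τ x)) = ∫ x in p..q, e (∑ τ ∈ I', (m τ : ℝ) * pwf A₀ c P τ x) := by
    congr 1
    ext x
    rw [hsum]
  rw [h2]
  refine h.trans ?_
  have h3 : 2 * (t : ℝ) * N * T * fp A₀ P τs a * (q - p) ≤ κ₁ * fp A₀ P τs a := by
    have h4 : 2 * (t : ℝ) * N * T * (q - p) ≤ κ₁ := by
      refine le_trans ?_ hℓκ
      exact mul_le_mul_of_nonneg_left (by linarith) (by positivity)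
    calc 2 * (t : ℝ) * N * T * fp A₀ P τs a * (q - p) = 2 * (t : ℝ) * N * T * (q - p) * fp A₀ P τs a := by ring
      _ ≤ κ₁ * fp A₀ P τs a := mul_le_mul_of_nonneg_right h4 hVpos.le
  have h5 : 2 * (t : ℝ) * N * T * fp A₀ P τs a * (q - p) / (κ₁ * fp A₀ P τs a) ^ 2 ≤ 1 / (κ₁ * fp A₀ P τs a) := by
    rw [div_le_div_iff₀ (by positivity) hμ]
    nlinarith
  have h6 : 1 / (κ₁ * fp A₀ P τs a) ≤ ℓ / (κ₁ * ϑ) := by
    rw [div_le_div_iff₀ hμ (by positivity)]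
    nlinarith
  calc 1 / (κ₁ * fp A₀ P τs a) + 2 * (t : ℝ) * N * T * fp A₀ P τs a * (q - p) / (κ₁ * fp A₀ P τs a) ^ 2
      ≤ ℓ / (κ₁ * ϑ) + ℓ / (κ₁ * ϑ) := add_le_add h6 (h5.trans h6)
    _ = 2 * ℓ / (κ₁ * ϑ) := by ring

end Pool.Agent.Helper5.LD7
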